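import Pool.Agent.Helper87.VM.Lib2

/-!
Existence of the embedding of the quotient of `B × Y` (module XEX of `MP_39dd1a_ag`).
-/

set_option autoImplicit false

namespace Pool.Agent.Helper87.VM

open MvPolynomial Pool.Agent.Helper48.VMRT

section xex

variable {G κB κY : Type} [Group G]

/-- Scaling of the variables of a polynomial. -/
theorem xex_scale {κ : Type} [Fintype κ] (Φ : MvPolynomial κ ℂ) (r : κ → ℂ) :
    ∃ Ψ : MvPolynomial κ ℂ, (∀ x, eval x Ψ = eval (fun i => r i * x i) Φ) ∧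
      ∀ m, coeff m Ψ = coeff m Φ * ∏ i, r i ^ m i := by
  classical
  refine ⟨∑ m ∈ Φ.support, monomial m (coeff m Φ * ∏ i, r i ^ m i), ?_, ?_⟩
  · intro x
    rw [map_sum, eval_eq']
    refine Finset.sum_congr rfl fun m _ => ?_
    rw [eval_monomial, Finsupp.prod_fintype _ _ (fun i => pow_zero _), mul_assoc,
      ← Finset.prod_mul_distrib]
    congr 1
    exact Finset.prod_congr rfl fun i _ => (mul_pow _ _ _).symm
  · intro m
    rw [coeff_sum]
    simp only [coeff_monomial]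
    rw [Finset.sum_ite_eq' Φ.support m]
    split_ifs with h
    · rfl
    · rw [notMem_support_iff.1 h, zero_mul]

/-- The monomials of a bihomogeneous polynomial. -/
theorem xex_bideg [Fintype κB] [Fintype κY] {T k : ℕ} {Φ : MvPolynomial (κB ⊕ κY) ℂ}
    (h : BiHom T k Φ) {m : (κB ⊕ κY) →₀ ℕ} (hm : coeff m Φ ≠ 0) :
    ∑ i, m (Sum.inl i) = T ∧ ∑ j, m (Sum.inr j) = k := by
  have key : ∀ a c : ℂ, a ^ (∑ i, m (Sum.inl i)) * c ^ (∑ j, m (Sum.inr j)) = a ^ T * c ^ k := by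
    intro a c
    obtain ⟨Ψ, h1, h2⟩ := xex_scale Φ (Sum.elim (fun _ => a) (fun _ => c))
    have h3 : Ψ = C (a ^ T * c ^ k) * Φ := by
      apply MvPolynomial.funext
      intro x
      rw [h1, map_mul, eval_C]
      have h4 := h a c (fun i => x (Sum.inl i)) (fun j => x (Sum.inr j))
      have h5 : (Sum.elim (a • fun i => x (Sum.inl i)) (c • fun j => x (Sum.inr j)) :
          κB ⊕ κY → ℂ) = fun i => (Sum.elim (fun _ => a) (fun _ => c) : κB ⊕ κY → ℂ) i * x i := by
        funext i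
        cases i <;> rfl
      have h6 : (Sum.elim (fun i => x (Sum.inl i)) (fun j => x (Sum.inr j)) : κB ⊕ κY → ℂ) = x := by
        funext i
        cases i <;> rfl
      rw [h5, h6] at h4
      exact h4
    have h7 := h2 m
    rw [h3, coeff_C_mul, Fintype.prod_sum_type] at h7
    simp only [Sum.elim_inl, Sum.elim_inr, Finset.prod_pow_eq_pow_sum] at h7
    have h8 : coeff m Φ * (a ^ T * c ^ k) = coeff m Φ *
        (a ^ (∑ i, m (Sum.inl i)) * c ^ (∑ j, m (Sum.inr j))) := by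
      rw [← h7, mul_comm]
    exact (mul_left_cancel₀ hm h8).symm
  have h2 : ∀ p q : ℕ, (2 : ℂ) ^ p = 2 ^ q → p = q := by
    intro p q hpq
    have : (2 : ℕ) ^ p = 2 ^ q := by exact_mod_cast hpq
    exact Nat.pow_right_injective (le_refl 2) this
  constructor
  · apply h2
    have := key 2 1
    simpa using this
  · apply h2
    have := key 1 2
    simpa using this

/-- A multiset of variables of given size, as a function. -/
theorem xex_mon {κ : Type} [Fintype κ] (m : κ → ℕ) (n : ℕ) (hm : ∑ i, m i = n) :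
    ∃ s : Fin n → κ, ∀ x : κ → ℂ, ∏ l, x (s l) = ∏ i, x i ^ m i := by
  classical
  subst hm
  have h1 : Fintype.card (Σ i : κ, Fin (m i)) = ∑ i, m i := by
    rw [Fintype.card_sigma]
    simp
  let e : Fin (∑ i, m i) ≃ (Σ i : κ, Fin (m i)) := (Fintype.equivFinOfCardEq h1).symm
  refine ⟨fun l => (e l).1, fun x => ?_⟩
  rw [Equiv.prod_comp e (fun p : (Σ i : κ, Fin (m i)) => x p.1), Fintype.prod_sigma]
  simp

/-- The map from the variables of the tensor product. -/
noncomputable def xexM (t : ℕ) (κB κY : Type) :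
    (Fin t → κB) × κY → MvPolynomial (κB ⊕ κY) ℂ :=
  fun p => (∏ l, X (Sum.inl (p.1 l))) * X (Sum.inr p.2)

theorem xex_ev (t : ℕ) (b : κB → ℂ) (y : κY → ℂ) :
    ev (xexM t κB κY) (Sum.elim b y) = seg (ev (tpp t) b) y := by
  funext p
  simp [ev, xexM, seg, tpp, map_prod]

/-- Bihomogeneous polynomials of bidegree `(k t, k)` come from forms of degree `k`. -/
theorem xex_lift [Fintype κB] [Fintype κY] (t k : ℕ) (Φ : MvPolynomial (κB ⊕ κY) ℂ)
    (h : BiHom (k * t) k Φ) : ∃ P : MvPolynomial ((Fin t → κB) × κY) ℂ, HomE k P ∧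
      ∀ b y, eval (seg (ev (tpp t) b) y) P = eval (Sum.elim b y) Φ := by
  classical
  have h1 : ∀ m ∈ Φ.support, ∃ P : MvPolynomial ((Fin t → κB) × κY) ℂ, HomE k P ∧
      ∀ (b : κB → ℂ) (y : κY → ℂ), eval (seg (ev (tpp t) b) y) P =
        ∏ i, (Sum.elim b y : κB ⊕ κY → ℂ) i ^ m i := by
    intro m hm
    obtain ⟨h2, h3⟩ := xex_bideg h (mem_support_iff.1 hm)
    obtain ⟨s, hs⟩ := xex_mon (fun i => m (Sum.inl i)) (k * t) h2
    obtain ⟨u, hu⟩ := xex_mon (fun j => m (Sum.inr j)) k h3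
    refine ⟨∏ l : Fin k, X (fun r : Fin t => s (finProdFinEquiv (l, r)), u l), ?_, ?_⟩
    · have := HomE.prod (A := (Finset.univ : Finset (Fin k)))
        (p := fun l => (X (fun r : Fin t => s (finProdFinEquiv (l, r)), u l) :
          MvPolynomial ((Fin t → κB) × κY) ℂ)) (k := 1) (fun j _ => homE_X _)
      simpa using this
    · intro b y
      rw [map_prod, Fintype.prod_sum_type]
      simp only [eval_X, Sum.elim_inl, Sum.elim_inr]
      rw [← hs b, ← hu y]
      have h4 : ∀ l : Fin k, seg (ev (tpp t) b) y (fun r : Fin t => s (finProdFinEquiv (l, r)), u l)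
          = (∏ r : Fin t, b (s (finProdFinEquiv (l, r)))) * y (u l) := by
        intro l
        simp [seg, ev, tpp, map_prod]
      rw [Finset.prod_congr rfl fun l _ => h4 l, Finset.prod_mul_distrib]
      congr 1
      rw [← Equiv.prod_comp finProdFinEquiv (fun l => b (s l)), Fintype.prod_prod_type]
  choose! P hP using h1
  refine ⟨∑ m ∈ Φ.support, coeff m Φ • P m, ?_, ?_⟩
  · exact HomE.sum fun m hm => (hP m hm).1.smul _
  · intro b y
    rw [map_sum, eval_eq']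
    refine Finset.sum_congr rfl fun m hm => ?_
    rw [smul_eval, (hP m hm).2]

/-- The permutations of the tensor power. -/
def xexπ (t : ℕ) {κ : Type} (π : G →* Equiv.Perm κ) : G →* Equiv.Perm (Fin t → κ) where
  toFun g := Equiv.piCongrRight (fun _ => π g)
  map_one' := by
    ext I l
    simp
  map_mul' g h := by
    ext I l
    simp

theorem xex_prep (t : ℕ) {κ : Type} (π : G →* Equiv.Perm κ) (g : G) (b : κ → ℂ) :
    prep (xexπ t π) g (ev (tpp t) b) = ev (tpp t) (prep π g b) := by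
  funext I
  rw [prep_apply]
  simp only [ev, tpp, map_prod, eval_X, prep_apply]
  rfl

theorem xex_homtpp (t : ℕ) {κ : Type} (I : Fin t → κ) : HomE t (tpp t I) := by
  have := HomE.prod (A := (Finset.univ : Finset (Fin t)))
    (p := fun l => (X (I l) : MvPolynomial κ ℂ)) (k := 1) (fun j _ => homE_X _)
  simpa [tpp] using this

/-- A finite spanning family of the invariant forms of degree `k`. -/
theorem xex_span {κ : Type} [Fintype κ] (ρ : G →* ((κ → ℂ) →ₗ[ℂ] (κ → ℂ))) (k : ℕ) :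
    ∃ (N : ℕ) (f : Fin (N + 1) → MvPolynomial κ ℂ), (∀ i, HomE k (f i)) ∧ (∀ i, InvE ρ (f i)) ∧
      ∀ p : MvPolynomial κ ℂ, HomE k p → InvE ρ p → p ∈ Submodule.span ℂ (Set.range f) := by
  classical
  let W : Submodule ℂ (MvPolynomial κ ℂ) :=
    { carrier := {p | HomE k p ∧ InvE ρ p}
      zero_mem' := ⟨homE_zero k, fun g x => by simp⟩
      add_mem' := fun {p q} hp hq =>
        ⟨hp.1.add hq.1, fun g x => by rw [map_add, map_add, hp.2, hq.2]⟩
      smul_mem' := fun c p hp =>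
        ⟨hp.1.smul c, fun g x => by rw [smul_eval, smul_eval, hp.2]⟩ }
  have hW : W ≤ homogeneousSubmodule κ ℂ k := fun p hp =>
    (mem_homogeneousSubmodule k p).2 (isHomogeneous_of_homE hp.1)
  have hfin : Module.Finite ℂ (homogeneousSubmodule κ ℂ k) :=
    Module.Finite.iff_fg.2 (homogeneousSubmodule_fg κ ℂ k)
  have hWf : FiniteDimensional ℂ W := Submodule.finiteDimensional_of_le hW
  obtain ⟨N, s, hs⟩ :=
    Submodule.fg_iff_exists_fin_generating_family.1 (Module.Finite.iff_fg.1 hWf)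
  have hmem : ∀ i, (Fin.cons 0 s : Fin (N + 1) → MvPolynomial κ ℂ) i ∈ W := by
    intro i
    refine Fin.cases ?_ (fun j => ?_) i
    · exact W.zero_mem
    · rw [Fin.cons_succ, ← hs]
      exact Submodule.subset_span ⟨j, rfl⟩
  refine ⟨N, Fin.cons 0 s, fun i => (hmem i).1, fun i => (hmem i).2, fun p h1 h2 => ?_⟩
  have hp : p ∈ W := ⟨h1, h2⟩
  rw [← hs] at hp
  refine Submodule.span_mono ?_ hp
  rintro _ ⟨j, rfl⟩
  exact ⟨j.succ, Fin.cons_succ _ _ _⟩

/-- Averages over the group. -/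
theorem xex_avg [Fintype G] {κ : Type} [Fintype κ] (ρ : G →* ((κ → ℂ) →ₗ[ℂ] (κ → ℂ))) (k : ℕ)
    (P : MvPolynomial κ ℂ) (hP : HomE k P) :
    ∃ P' : MvPolynomial κ ℂ, HomE k P' ∧ InvE ρ P' ∧
      ∀ x c, (∀ g, eval (ρ g x) P = c) → eval x P' = c := by
  classical
  have hev : ∀ x, eval x (((Fintype.card G : ℂ)⁻¹) • ∑ g : G, pull (ρ g) P) =
      (Fintype.card G : ℂ)⁻¹ * ∑ g : G, eval (ρ g x) P := by
    intro x
    rw [smul_eval, map_sum]
    congr 1
    exact Finset.sum_congr rfl fun g _ => eval_pull _ _ _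
  refine ⟨((Fintype.card G : ℂ)⁻¹) • ∑ g : G, pull (ρ g) P, ?_, ?_, ?_⟩
  · exact (HomE.sum fun g _ => homE_pull (ρ g) hP).smul _
  · intro h x
    rw [hev, hev]
    congr 1
    rw [← Equiv.sum_comp (Equiv.mulRight h) (fun g => eval (ρ g x) P)]
    refine Finset.sum_congr rfl fun g _ => ?_
    rw [Equiv.coe_mulRight, map_mul, Module.End.mul_apply]
  · intro x c hc
    rw [hev, Finset.sum_congr rfl fun g _ => hc g, Finset.sum_const, Finset.card_univ,
      nsmul_eq_mul, ← mul_assoc, inv_mul_cancel₀, one_mul]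
    exact Nat.cast_ne_zero.2 Fintype.card_ne_zero

theorem xex_dev [Fintype κB] [Fintype κY] (t : ℕ) (b b' : κB → ℂ) (y y' : κY → ℂ) :
    dev (xexM t κB κY) (Sum.elim b y) (Sum.elim b' y') =
      seg (dev (tpp t) b b') y + seg (ev (tpp t) b) y' := by
  funext p
  obtain ⟨I, j⟩ := p
  have h1 : (∏ l, X (Sum.inl (I l)) : MvPolynomial (κB ⊕ κY) ℂ) =
      aeval (fun i => X (Sum.inl i)) (tpp t I) := by
    rw [tpp, map_prod]
    simp
  have h2 : ev (fun i => (X (Sum.inl i) : MvPolynomial (κB ⊕ κY) ℂ)) (Sum.elim b y) = b := by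
    funext i; simp [ev]
  have h3 : dev (fun i => (X (Sum.inl i) : MvPolynomial (κB ⊕ κY) ℂ)) (Sum.elim b y)
      (Sum.elim b' y') = b' := by
    funext i; simp [dev]
  rw [dev_apply, xexM, h1, dpol_mul, dpol_X, eval_X, dpol_aeval, eval_aeval, h2, h3]
  simp only [Pi.add_apply, seg, dev_apply, ev, Sum.elim_inr]
  ring

end xex

theorem st_XEX (hSEG : ST_SEG) (hTP : ST_TP) (hQUO : ST_QUO) : ST_XEX := by
  classical
  intro G κB κY _ _ _ _ _ _ π B ρY Y w k t hB hfree hY hYact hk hkG ht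
  obtain ⟨T1, T2, T3, T4, T5⟩ := hTP κB 1 t B hB ht
  obtain ⟨S1, S2⟩ := hSEG _ _ 1 w _ _ T1 hY
  set ρ := tens (prep (xexπ t π)) ρY with hρ
  have hseg : ∀ (g : G) (b : κB → ℂ) (y : κY → ℂ),
      ρ g (seg (ev (tpp t) b) y) = seg (ev (tpp t) (prep π g b)) (ρY g y) := by
    intro g b y
    rw [hρ, tens_seg, xex_prep]
  have hevz : ∀ b : κB → ℂ, ev (tpp t) b ≠ 0 → b ≠ 0 := by
    rintro b hb rfl
    apply hb
    funext I
    simp only [ev, tpp, map_prod, eval_X, Pi.zero_apply]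
    exact Finset.prod_eq_zero (Finset.mem_univ (⟨0, ht⟩ : Fin t)) rfl
  have hinv : ∀ (σ : G →* ((κY → ℂ) →ₗ[ℂ] (κY → ℂ))) (g : G) (y : κY → ℂ), y ≠ 0 → σ g y ≠ 0 := by
    intro σ g y hy h0
    have h3 : σ g⁻¹ (σ g y) = y := by
      rw [← Module.End.mul_apply, ← map_mul, inv_mul_cancel, map_one, Module.End.one_apply]
    rw [h0, map_zero] at h3
    exact hy h3.symm
  have hinvB : ∀ (g : G) (y : κB → ℂ), y ≠ 0 → prep π g y ≠ 0 := by
    intro g y hy h0
    have h3 : prep π g⁻¹ (prep π g y) = y := by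
      rw [← Module.End.mul_apply, ← map_mul, inv_mul_cancel, map_one, Module.End.one_apply]
    rw [h0, map_zero] at h3
    exact hy h3.symm
  have hfreeS : FreeAct ρ (segS (ev (tpp t) '' B) Y) := by
    constructor
    · rintro g _ ⟨_, ⟨b, hb, rfl⟩, y, hy, rfl⟩
      rw [hseg]
      exact ⟨_, ⟨_, hfree.1 g b hb, rfl⟩, _, hYact g y hy, rfl⟩
    · rintro g hg _ ⟨_, ⟨b, hb, rfl⟩, y, hy, rfl⟩ hne a h
      have h1 : ev (tpp t) b ≠ 0 := fun e => hne (by rw [e, seg_zero_left])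
      have h2 : y ≠ 0 := fun e => hne (by rw [e, seg_zero_right])
      have hb0 := hevz b h1
      rw [hseg] at h
      have h3 : seg (ev (tpp t) (prep π g b)) (ρY g y) ≠ 0 :=
        seg_ne_zero (T2 _ (hfree.1 g b hb) (hinvB g b hb0)) (hinv ρY g y h2)
      rw [← seg_smul_right] at h
      obtain ⟨c, hc, h4, -⟩ := seg_eq_seg h h3
      have h5 : ev (tpp t) (prep π g b) = c⁻¹ • ev (tpp t) b := by
        rw [h4, smul_smul, inv_mul_cancel₀ hc, one_smul]
      obtain ⟨c', hc'⟩ := T3 b hb hb0 _ (hfree.1 g b hb) (hinvB g b hb0) _ h5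
      exact hfree.2 g hg b hb hb0 c' hc'
  obtain ⟨N, f, hf1, hf2, hf3⟩ := xex_span ρ k
  obtain ⟨Q1, Q2, Q3, Q4, Q5⟩ := hQUO G _ (Fin (N + 1)) (1 + w) ρ _ k f S1 hfreeS hk hkG hf1 hf2 hf3
  have hev : ∀ (b : κB → ℂ) (y : κY → ℂ),
      ev2 (fun i => aeval (xexM t κB κY) (f i)) b y = ev f (seg (ev (tpp t) b) y) := by
    intro b y
    funext i
    rw [ev2, eval_aeval, xex_ev]
    rfl
  have hd : ∀ (b b' : κB → ℂ) (y y' : κY → ℂ),
      d2 (fun i => aeval (xexM t κB κY) (f i)) b y b' y' =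
        dev f (seg (ev (tpp t) b) y) (seg (dev (tpp t) b b') y + seg (ev (tpp t) b) y') := by
    intro b b' y y'
    funext i
    rw [d2, dpol_aeval, xex_ev, xex_dev]
    rfl
  have hXS : XS (fun i => aeval (xexM t κB κY) (f i)) B Y = ev f '' (segS (ev (tpp t) '' B) Y) := by
    ext v
    constructor
    · rintro ⟨b, hb, y, hy, rfl⟩
      rw [hev]
      exact ⟨_, ⟨_, ⟨b, hb, rfl⟩, y, hy, rfl⟩, rfl⟩
    · rintro ⟨_, ⟨_, ⟨b, hb, rfl⟩, y, hy, rfl⟩, rfl⟩
      exact ⟨b, hb, y, hy, (hev b y).symm⟩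
  have hmemS : ∀ b ∈ B, ∀ y ∈ Y, seg (ev (tpp t) b) y ∈ segS (ev (tpp t) '' B) Y :=
    fun b hb y hy => ⟨_, ⟨b, hb, rfl⟩, y, hy, rfl⟩
  refine ⟨N, fun i => aeval (xexM t κB κY) (f i), ?_⟩
  refine ⟨?_, ?_, ?_, ?_, ?_, ?_, ?_, ?_⟩
  · -- hom
    intro i a c b y
    have h1 : ∀ (b : κB → ℂ) (y : κY → ℂ), eval (Sum.elim b y) (aeval (xexM t κB κY) (f i)) =
        eval (seg (ev (tpp t) b) y) (f i) := fun b y => congrFun (hev b y) i
    rw [h1, h1]
    have h2 : ev (tpp t) (a • b) = a ^ t • ev (tpp t) b :=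
      funext fun I => xex_homtpp t I a b
    rw [h2, seg_smul_smul, hf1 i, mul_pow, ← pow_mul, mul_comm t k]
  · -- inv
    intro i g b y
    have h1 : ∀ (b : κB → ℂ) (y : κY → ℂ), eval (Sum.elim b y) (aeval (xexM t κB κY) (f i)) =
        eval (seg (ev (tpp t) b) y) (f i) := fun b y => congrFun (hev b y) i
    rw [h1, h1, ← hseg, hf2 i g]
  · -- lin
    intro Φ hΦ1 hΦ2
    obtain ⟨P, hP1, hP2⟩ := xex_lift t k Φ hΦ1
    obtain ⟨P', hP3, hP4, hP5⟩ := xex_avg ρ k P hP1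
    have hP6 : ∀ b y, eval (seg (ev (tpp t) b) y) P' = eval (Sum.elim b y) Φ := by
      intro b y
      apply hP5
      intro g
      rw [hseg, hP2]
      exact hΦ2 g b y
    obtain ⟨c, hc⟩ := (Submodule.mem_span_range_iff_exists_fun ℂ).1 (hf3 P' hP3 hP4)
    refine ⟨∑ i, c i • LinearMap.proj i, fun b y => ?_⟩
    rw [hev, ← hP6, ← hc, map_sum, LinearMap.sum_apply]
    refine Finset.sum_congr rfl fun i _ => ?_
    rw [smul_eval]
    rfl
  · -- ne
    intro b hb hb0 y hy hy0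
    rw [hev]
    exact Q2 _ (hmemS b hb y hy) (seg_ne_zero (T2 b hb hb0) hy0)
  · -- sep
    intro b hb hb0 y hy hy0 b' hb' hb0' y' hy' hy0' a h
    rw [hev, hev] at h
    obtain ⟨g, c, h1⟩ := Q3 _ (hmemS b hb y hy) (seg_ne_zero (T2 b hb hb0) hy0) _
      (hmemS b' hb' y' hy') (seg_ne_zero (T2 b' hb' hb0') hy0') a h
    rw [hseg, ← seg_smul_right] at h1
    obtain ⟨e, he, h2, h3⟩ := seg_eq_seg h1 (seg_ne_zero (T2 b' hb' hb0') hy0')
    have h4 : ev (tpp t) b' = e⁻¹ • ev (tpp t) (prep π g b) := by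
      rw [h2, smul_smul, inv_mul_cancel₀ he, one_smul]
    obtain ⟨c', hc'⟩ := T3 _ (hfree.1 g b hb) (hinvB g b hb0) b' hb' hb0' _ h4
    refine ⟨g, c', e * c, hc', ?_⟩
    rw [← smul_smul, h3, smul_smul, mul_inv_cancel₀ he, one_smul]
  · -- pm
    rw [hXS, add_comm w 1]
    exact Q1
  · -- tan
    intro b hb hb0 y hy hy0 v
    rw [hXS, hev, Q4 _ (hmemS b hb y hy) (seg_ne_zero (T2 b hb hb0) hy0)]
    constructor
    · rintro ⟨u, hu, rfl⟩
      obtain ⟨x', hx', y', hy', rfl⟩ := (S2 _ ⟨b, hb, rfl⟩ (T2 b hb hb0) y hy hy0 u).1 hu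
      obtain ⟨b', hb', rfl⟩ := (T4 b hb hb0 x').1 hx'
      exact ⟨b', hb', y', hy', (hd b b' y y').symm⟩
    · rintro ⟨b', hb', y', hy', rfl⟩
      refine ⟨_, (S2 _ ⟨b, hb, rfl⟩ (T2 b hb hb0) y hy hy0 _).2
        ⟨_, (T4 b hb hb0 _).2 ⟨b', hb', rfl⟩, y', hy', rfl⟩, hd b b' y y'⟩
  · -- ker
    intro b hb hb0 y hy hy0 b' _ y' _ h
    rw [hd] at h
    have h1 := Q5 _ (hmemS b hb y hy) (seg_ne_zero (T2 b hb hb0) hy0) _ h
    obtain ⟨j, hj⟩ := Function.ne_iff.1 hy0
    obtain ⟨I0, hI0⟩ := Function.ne_iff.1 (T2 b hb hb0)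
    have hj' : y j ≠ 0 := hj
    have hI0' : ev (tpp t) b I0 ≠ 0 := hI0
    have h2 : ∀ I l, dev (tpp t) b b' I * y l + ev (tpp t) b I * y' l = 0 := by
      intro I l
      exact congrFun h1 (I, l)
    have ht0 : (t : ℂ) ≠ 0 := Nat.cast_ne_zero.2 (by omega)
    have hk0 : (k : ℂ) ≠ 0 := Nat.cast_ne_zero.2 (by omega)
    have h3 : dev (tpp t) b b' = (-(y' j / y j)) • ev (tpp t) b := by
      funext I
      have := h2 I j
      rw [Pi.smul_apply, smul_eq_mul]
      field_simp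
      linear_combination this
    have h4 : y' = (y' j / y j) • y := by
      funext l
      have h5 := h2 I0 l
      rw [h3, Pi.smul_apply, smul_eq_mul] at h5
      rw [Pi.smul_apply, smul_eq_mul]
      have h6 : ev (tpp t) b I0 * (y' l - y' j / y j * y l) = 0 := by linear_combination h5
      have h7 := (mul_eq_zero.1 h6).resolve_left hI0'
      linear_combination h7
    have h8 : dev (tpp t) b b = (t : ℂ) • ev (tpp t) b := by
      funext I
      exact euler (xex_homtpp t I) b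
    have h9 : dev (tpp t) b (b' - (-(y' j / y j) / t) • b) = 0 := by
      rw [sub_eq_add_neg, ← neg_smul, dev_add, dev_smul, h8, h3, smul_smul, ← add_smul]
      have : -(y' j / y j) + -(-(y' j / y j) / (t : ℂ)) * t = 0 := by
        field_simp
        ring
      rw [this, zero_smul]
    have h10 := sub_eq_zero.1 (T5 b hb hb0 _ h9)
    refine ⟨-(y' j / y j) / (t * k), ?_, ?_⟩
    · rw [h10]
      congr 1
      field_simp
    · conv_lhs => rw [h4]
      congr 1
      push_cast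
      field_simp

end Pool.Agent.Helper87.VM
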