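import Pool.Agent.Helper87.VM.Lib2

/-!
The tangents of the family at a general point (module VT of `MP_39dd1a_ag`).
-/

set_option autoImplicit false

namespace Pool.Agent.Helper87.VM

open MvPolynomial Pool.Agent.Helper48.VMRT

section vt

variable (D : VD)

/-- The differential of `x ↦ ev2 E b (gr x)`. -/
noncomputable def vtD (b : D.κB → ℂ) (x x' : Option (Fin D.w) → ℂ) : Fin (D.N + 1) → ℂ :=
  d2 D.E b (D.gr x) 0 (seg x' (ev D.F x) + seg x (dev D.F x x'))

theorem vt_deriv (b : D.κB → ℂ) {γ : ℂ → Option (Fin D.w) → ℂ} {γ' : Option (Fin D.w) → ℂ}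
    {τ : ℂ} (h : ∀ o, HasDerivAt (fun s => γ s o) (γ' o) τ) (i : Fin (D.N + 1)) :
    HasDerivAt (fun s => ev2 D.E b (D.gr (γ s)) i) (vtD D b (γ τ) γ' i) τ := by
  refine hasDerivAt_ev2 D.E (β := fun _ => b) (η := fun s => D.gr (γ s)) (β' := 0)
    (η' := seg γ' (ev D.F (γ τ)) + seg (γ τ) (dev D.F (γ τ) γ'))
    (fun j => hasDerivAt_const _ _) ?_ i
  rintro ⟨o, j⟩
  have h1 := (h o).mul (hasDerivAt_eval (D.F j) h)
  exact h1

theorem vtD_add (b : D.κB → ℂ) (x x' x'' : Option (Fin D.w) → ℂ) :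
    vtD D b x (x' + x'') = vtD D b x x' + vtD D b x x'' := by
  have h : seg (x' + x'') (ev D.F x) + seg x (dev D.F x (x' + x'')) =
      (seg x' (ev D.F x) + seg x (dev D.F x x')) +
        (seg x'' (ev D.F x) + seg x (dev D.F x x'')) := by
    rw [dev_add, seg_add_left, seg_add_right]; abel
  have h2 := d2_add D.E b (D.gr x) 0 0 (seg x' (ev D.F x) + seg x (dev D.F x x'))
    (seg x'' (ev D.F x) + seg x (dev D.F x x''))
  rw [add_zero, ← h] at h2
  exact h2

theorem vtD_smul (b : D.κB → ℂ) (x x' : Option (Fin D.w) → ℂ) (r : ℂ) :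
    vtD D b x (r • x') = r • vtD D b x x' := by
  have h : seg (r • x') (ev D.F x) + seg x (dev D.F x (r • x')) =
      r • (seg x' (ev D.F x) + seg x (dev D.F x x')) := by
    rw [dev_smul, seg_smul_left, seg_smul_right, smul_add]
  have h2 := d2_smul D.E b (D.gr x) r 0 (seg x' (ev D.F x) + seg x (dev D.F x x'))
  rw [smul_zero, ← h] at h2
  exact h2

theorem vtD_euler (hF : ∀ j, HomE D.a (D.F j)) {T k : ℕ} (hE : ∀ i, BiHom T k (D.E i))
    (b : D.κB → ℂ) (x : Option (Fin D.w) → ℂ) :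
    vtD D b x x = ((D.a + 1) * k : ℂ) • ev2 D.E b (D.gr x) := by
  have h1 : dev D.F x x = (D.a : ℂ) • ev D.F x := funext fun j => euler (hF j) x
  have h2 : seg x (ev D.F x) + seg x (dev D.F x x) = ((D.a + 1 : ℂ)) • D.gr x := by
    rw [h1, seg_smul_right, VD.gr, add_smul, one_smul, add_comm]
  have h3 := d2_smul D.E b (D.gr x) ((D.a + 1 : ℂ)) 0 (D.gr x)
  rw [smul_zero, d2_euler_right hE] at h3
  rw [vtD, h2, h3, smul_smul]

theorem vtD_scale (hF : ∀ j, HomE D.a (D.F j)) {T k : ℕ} (hE : ∀ i, BiHom T k (D.E i))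
    (b : D.κB → ℂ) (x x' : Option (Fin D.w) → ℂ) (c lam : ℂ) (hlam : lam ≠ 0) :
    vtD D (c • b) (lam • x) x' =
      (c ^ T * (lam ^ (D.a + 1)) ^ k * lam⁻¹) • vtD D b x x' := by
  funext i
  have h1 := vt_deriv D (c • b) (γ := fun s => lam • x + s • x') (γ' := x') (τ := 0)
    (fun o => hasDerivAt_line (lam • x) x' 0 o) i
  have h2 := vt_deriv D b (γ := fun s => x + s • (lam⁻¹ • x')) (γ' := lam⁻¹ • x') (τ := 0)
    (fun o => hasDerivAt_line x (lam⁻¹ • x') 0 o) i
  simp only [zero_smul, add_zero] at h1 h2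
  have h3 : (fun s : ℂ => ev2 D.E (c • b) (D.gr (lam • x + s • x')) i) =
      fun s => (c ^ T * (lam ^ (D.a + 1)) ^ k) * ev2 D.E b (D.gr (x + s • (lam⁻¹ • x'))) i := by
    funext s
    have h4 : lam • x + s • x' = lam • (x + s • (lam⁻¹ • x')) := by
      rw [smul_add, smul_smul, smul_smul]
      congr 2
      field_simp
    rw [h4, D.gr_smul hF, ev2_smul_smul hE, Pi.smul_apply, smul_eq_mul]
  rw [h3] at h1
  have h5 := h1.unique (h2.const_mul _)
  rw [h5, vtD_smul, Pi.smul_apply, Pi.smul_apply, smul_eq_mul, smul_eq_mul]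
  ring

end vt

section vt2

variable {N d : ℕ}

theorem vt_has_dps (c : Coef N d) (s t : ℂ) (i : Fin (N + 1)) :
    HasDerivAt (fun x => pt c x t i) (dps c s t i) s := by
  have h : DifferentiableAt ℂ (fun x => pt c x t i) s := by
    simp only [pt]
    fun_prop
  exact h.hasDerivAt

theorem vt_has_dpt (c : Coef N d) (s t : ℂ) (i : Fin (N + 1)) :
    HasDerivAt (fun y => pt c s y i) (dpt c s t i) t := by
  have h : DifferentiableAt ℂ (fun y => pt c s y i) t := by
    simp only [pt]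
    fun_prop
  exact h.hasDerivAt

theorem vt_dps_one (c : Coef N d) : dps c 1 0 = (d : ℂ) • pt c 1 0 := by
  funext i
  have h1 := vt_has_dps c 1 0 i
  have h2 : (fun x : ℂ => pt c x 0 i) = fun x => x ^ d * pt c 1 0 i := by
    funext x
    have h3 := congrFun (hevv_cpol c x 0) i
    have h4 := congrFun (hevv_cpol c 1 0) i
    have h5 := hev_smul_smul d (cpol c i) x 1 0
    rw [mul_one, mul_zero] at h5
    rw [← h3, ← h4]
    exact h5
  rw [h2] at h1
  have h3 := (hasDerivAt_pow d (1 : ℂ)).mul_const (pt c 1 0 i)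
  rw [one_pow, mul_one] at h3
  exact h1.unique h3

end vt2

section vt3

variable (D : VD)

theorem vt_dps (c : Coef D.N D.dg) (b : D.κB → ℂ) (p q : Option (Fin D.w) → ℂ)
    (hc : ∀ s t : ℂ, (s * p none + t * q none) ^ D.k • pt c s t =
      ev2 D.E b (D.gr (s • p + t • q))) (s t : ℂ) :
    ((D.k : ℂ) * (s * p none + t * q none) ^ (D.k - 1) * p none) • pt c s t +
      (s * p none + t * q none) ^ D.k • dps c s t = vtD D b (s • p + t • q) p := by
  funext i
  have h2 : HasDerivAt (fun x : ℂ => x * p none + t * q none) (p none) s := by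
    have := ((hasDerivAt_id' s).mul_const (p none)).add_const (t * q none)
    rwa [one_mul] at this
  have h3 := (h2.fun_pow D.k).fun_mul (vt_has_dps c s t i)
  have h4 := vt_deriv D b (γ := fun x => x • p + t • q) (γ' := p) (τ := s) (fun o => by
    have := ((hasDerivAt_id' s).mul_const (p o)).add_const (t * q o)
    rw [one_mul] at this
    exact this) i
  have h5 : (fun x : ℂ => (x * p none + t * q none) ^ D.k * pt c x t i) =
      fun x => ev2 D.E b (D.gr (x • p + t • q)) i := by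
    funext x
    exact congrFun (hc x t) i
  rw [h5] at h3
  exact h3.unique h4

theorem vt_dpt (c : Coef D.N D.dg) (b : D.κB → ℂ) (p q : Option (Fin D.w) → ℂ)
    (hc : ∀ s t : ℂ, (s * p none + t * q none) ^ D.k • pt c s t =
      ev2 D.E b (D.gr (s • p + t • q))) (s t : ℂ) :
    ((D.k : ℂ) * (s * p none + t * q none) ^ (D.k - 1) * q none) • pt c s t +
      (s * p none + t * q none) ^ D.k • dpt c s t = vtD D b (s • p + t • q) q := by
  funext i
  have h2 : HasDerivAt (fun x : ℂ => s * p none + x * q none) (q none) t := by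
    have := ((hasDerivAt_id' t).mul_const (q none)).const_add (s * p none)
    rwa [one_mul] at this
  have h3 := (h2.fun_pow D.k).fun_mul (vt_has_dpt c s t i)
  have h4 := vt_deriv D b (γ := fun x => s • p + x • q) (γ' := q) (τ := t) (fun o => by
    have := ((hasDerivAt_id' t).mul_const (q o)).const_add (s * p o)
    rw [one_mul] at this
    exact this) i
  have h5 : (fun x : ℂ => (s * p none + x * q none) ^ D.k * pt c s x i) =
      fun x => ev2 D.E b (D.gr (s • p + x • q)) i := by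
    funext x
    exact congrFun (hc s x) i
  rw [h5] at h3
  exact h3.unique h4

theorem vt_zcone (hD : D.Good) (a : ℂ) {z : Fin D.w → ℂ} (hz : z ∈ D.Z) : a • z ∈ D.Z := by
  obtain ⟨i, hi⟩ := Set.mem_iUnion.1 hz
  exact Set.mem_iUnion.2 ⟨i, hD.Zcone i a z hi⟩

/-- A member of the family with given tangent direction. -/
theorem vt_exists (hPAR : ST_PAR) (hD : D.Good) {b : D.κB → ℂ} (hb : b ∈ D.B) (hb0 : b ≠ 0)
    (u z : Fin D.w → ℂ) (hz : z ∈ D.Z) (hz0 : z ≠ 0) :
    ∃ c ∈ D.H, pt c 1 0 = ev2 D.E b (D.gr (ov 1 u)) ∧ dpt c 1 0 = D.dTh b u z ∧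
      dps c 1 0 = (D.dg : ℂ) • ev2 D.E b (D.gr (ov 1 u)) := by
  obtain ⟨Ψ, hΨ⟩ := hPAR D hD
  set c : Coef D.N D.dg := ev Ψ (Sum.elim b (Sum.elim u (Sum.elim ![1, 0, 0, 1] z))) with hcdef
  have hc : ∀ s t : ℂ, (s * (ov 1 u : Option (Fin D.w) → ℂ) none +
      t * (ov 0 z : Option (Fin D.w) → ℂ) none) ^ D.k • pt c s t =
      ev2 D.E b (D.gr (s • ov 1 u + t • ov 0 z)) := by
    intro s t
    have h := hΨ b u ![1, 0, 0, 1] z hz s t
    simp only [Matrix.cons_val_zero, Matrix.cons_val_one, Matrix.cons_val, one_smul, zero_smul,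
      add_zero, zero_add] at h
    exact h
  have hpt : ∀ t : ℂ, pt c 1 t = ev2 D.E b (D.gr (ov 1 u + t • ov 0 z)) := by
    intro t
    have h := hc 1 t
    simp only [ov_none, mul_one, mul_zero, add_zero, one_pow, one_smul] at h
    exact h
  have hpt0 : pt c 1 0 = ev2 D.E b (D.gr (ov 1 u)) := by
    rw [hpt, zero_smul, add_zero]
  refine ⟨c, ⟨b, ov 1 u, ov 0 z, ⟨hb, hb0, ?_, ?_, ?_⟩, hc⟩, hpt0, ?_, ?_⟩
  · rw [LinearIndependent.pair_iff]
    intro s t h
    have h1 : s = 0 := by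
      have := congrFun h none
      simpa using this
    refine ⟨h1, ?_⟩
    by_contra ht
    apply hz0
    funext i
    have := congrFun h (some i)
    simp only [Pi.add_apply, Pi.smul_apply, ov_some, h1, zero_smul, zero_add, smul_eq_mul,
      Pi.zero_apply] at this
    exact (mul_eq_zero.1 this).resolve_left ht
  · left
    exact one_ne_zero
  · have : (fun i => (ov 0 z : Option (Fin D.w) → ℂ) none * (ov 1 u : Option (Fin D.w) → ℂ) (some i)
        - (ov 1 u : Option (Fin D.w) → ℂ) none * (ov 0 z : Option (Fin D.w) → ℂ) (some i)) =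
        (-1 : ℂ) • z := by
      funext i
      simp
    rw [this]
    exact vt_zcone D hD (-1) hz
  · funext i
    have h1 := vt_has_dpt c 1 0 i
    have h2 : (fun y : ℂ => pt c 1 y i) = fun y => ev2 D.E b (D.gr (ov 1 u + y • ov 0 z)) i := by
      funext y
      rw [hpt]
    rw [h2] at h1
    have h3 := vt_deriv D b (γ := fun y => ov 1 u + y • ov 0 z) (γ' := ov 0 z) (τ := 0)
      (fun o => hasDerivAt_line (ov 1 u) (ov 0 z) 0 o) i
    have h4 := h1.unique h3
    simp only [zero_smul, add_zero] at h4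
    exact h4
  · rw [vt_dps_one, hpt0]

end vt3

theorem st_VT (hNF : ST_NF) (hMEM : ST_MEM) (hHCUR : ST_HCUR) (hPAR : ST_PAR) : ST_VT := by
  intro D hD L hL v hv hv0 hvL
  obtain ⟨b, hb, hb0, u, hvu⟩ := hNF D hD L hL v hv hv0 hvL
  refine ⟨b, hb, hb0, u, hvu, ?_⟩
  have hE := hD.xd.hom
  have hF := hD.fd.hom
  have hk : D.k ≠ 0 := by have := hD.kpos; omega
  have hdg : (D.dg : ℂ) ≠ 0 := by
    rw [Nat.cast_ne_zero, VD.dg]
    have := hD.fd.two_le
    exact Nat.mul_ne_zero hk (by omega)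
  set x0 : Option (Fin D.w) → ℂ := ov 1 u with hx0
  have hy00 : D.gr x0 ≠ 0 := by
    intro h
    apply hv0
    have h1 := ev2_smul_right hE 0 b (D.gr x0)
    rw [h, smul_zero, zero_pow hk, zero_smul] at h1
    rw [hvu, h, h1]
  apply Set.Subset.antisymm
  · rintro w ⟨c, hcH, s, t, hsm, hpt, A, B', rfl⟩
    -- normalise the data of `c`
    have key : ∃ (c1 : ℂ) (p q : Option (Fin D.w) → ℂ), D.HP (c1 • b) p q ∧
        ∀ s t : ℂ, (s * p none + t * q none) ^ D.k • pt c s t =
          ev2 D.E (c1 • b) (D.gr (s • p + t • q)) := by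
      obtain ⟨b1, p, q, hHP, hc⟩ := hcH
      obtain ⟨y, η, hy1, hy2, hy3, hy4, hy5, hy6⟩ := hMEM D hD b1 p q hHP c hc
      have h1 : ev2 D.E b1 (hevv D.a y s t) = (1 : ℂ) • ev2 D.E b (D.gr x0) := by
        rw [← hy5, hpt, one_smul, hvu]
      obtain ⟨g, c1, d1, h2, h3⟩ := hD.xd.sep b hb hb0 (D.gr x0) (D.gr_mem x0) hy00 b1 hHP.b_mem
        hHP.b_ne _ (hy4 s t) (hy1.ne s t hsm.ne) 1 h1
      obtain ⟨H1, H2, H3⟩ := st_HTR D hD g⁻¹
      have h4 : prep D.π g⁻¹ b1 = c1 • b := by
        rw [h2, map_smul, ← Module.End.mul_apply, ← map_mul, inv_mul_cancel, map_one,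
          Module.End.one_apply]
      refine ⟨c1, oext D.ρ g⁻¹ p, oext D.ρ g⁻¹ q, ?_, ?_⟩
      · rw [← h4]
        exact H2 b1 p q hHP
      · intro s t
        rw [oext_none, oext_none, hc s t, ← H3 b1 (s • p + t • q), h4, map_add, map_smul, map_smul]
    obtain ⟨c1, p, q, hHP, hc⟩ := key
    obtain ⟨y, η, hy1, hy2, hy3, hy4, hy5, hy6⟩ := hMEM D hD (c1 • b) p q hHP c hc
    have hc10 : c1 ≠ 0 := by
      rintro rfl
      exact hHP.b_ne (zero_smul _ _)
    have h1 : ev2 D.E (c1 • b) (hevv D.a y s t) = (1 : ℂ) • ev2 D.E b (D.gr x0) := by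
      rw [← hy5, hpt, one_smul, hvu]
    obtain ⟨g, c2, d2', h2, h3⟩ := hD.xd.sep b hb hb0 (D.gr x0) (D.gr_mem x0) hy00 _ hHP.b_mem
      hHP.b_ne _ (hy4 s t) (hy1.ne s t hsm.ne) 1 h1
    have hc20 : c2 ≠ 0 := by
      rintro rfl
      rw [zero_smul] at h2
      exact hHP.b_ne h2
    have hg : g = 1 := by
      by_contra hg
      refine hD.Bfree.2 g hg b hb hb0 (c2⁻¹ * c1) ?_
      rw [← smul_smul, h2, smul_smul, inv_mul_cancel₀ hc20, one_smul]
    rw [hg, map_one, Module.End.one_apply] at h3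
    -- the point
    set x1 : Option (Fin D.w) → ℂ := s • p + t • q with hx1
    have h4 : seg x1 (hevv (D.a - 1) η s t) = seg x0 (d2' • ev D.F x0) := by
      rw [← hy3, h3, seg_smul_right, VD.gr]
    have h5 : seg x1 (hevv (D.a - 1) η s t) ≠ 0 := by
      rw [← hy3]
      exact hy1.ne s t hsm.ne
    obtain ⟨e, he, h6, -⟩ := seg_eq_seg h4 h5
    have h7 : x1 = e⁻¹ • x0 := by
      rw [h6, smul_smul, inv_mul_cancel₀ he, one_smul]
    set lam : ℂ := s * p none + t * q none with hlam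
    have h8 : lam = e⁻¹ := by
      have := congrFun h7 none
      simpa [hx0, hx1] using this
    have hlam0 : lam ≠ 0 := by
      rw [h8]
      exact inv_ne_zero he
    rw [← h8] at h7
    -- derivatives
    have e1 := vt_dps D c (c1 • b) p q hc s t
    have e2 := vt_dpt D c (c1 • b) p q hc s t
    rw [← hlam, ← hx1, hpt] at e1 e2
    set mu : ℂ := (A * p none + B' * q none) / lam with hmu
    set z' : Fin D.w → ℂ := fun i => q none * p (some i) - p none * q (some i) with hz'
    obtain ⟨nu, hnu1, hnu2⟩ : ∃ nu : ℂ, A - mu * s = nu * q none ∧ B' - mu * t = -(nu * p none) := by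
      have hmul : mu * lam = A * p none + B' * q none := by
        rw [hmu]
        field_simp
      have h0 : (A - mu * s) * p none + (B' - mu * t) * q none = 0 := by
        rw [hlam] at hmul
        linear_combination -hmul
      rcases hHP.ne with hp | hq
      · refine ⟨-(B' - mu * t) / p none, ?_, ?_⟩
        · field_simp
          linear_combination h0
        · field_simp
      · refine ⟨(A - mu * s) / q none, ?_, ?_⟩
        · field_simp
        · field_simp
          linear_combination h0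
    have h9 : A • p + B' • q = mu • x1 + nu • ov 0 z' := by
      funext o
      have hA : A = mu * s + nu * q none := by linear_combination hnu1
      have hB : B' = mu * t - nu * p none := by linear_combination hnu2
      cases o with
      | none =>
        simp only [Pi.add_apply, Pi.smul_apply, smul_eq_mul, ov_none, hx1]
        rw [hA, hB]
        ring
      | some i =>
        simp only [Pi.add_apply, Pi.smul_apply, smul_eq_mul, ov_some, hx1, hz']
        rw [hA, hB]
        ring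
    have h10 : lam ^ D.k • (A • dps c s t + B' • dpt c s t) =
        vtD D (c1 • b) x1 (A • p + B' • q) -
          ((D.k : ℂ) * lam ^ (D.k - 1) * (A * p none + B' * q none)) • v := by
      rw [vtD_add, vtD_smul, vtD_smul, ← e1, ← e2]
      module
    have h11 : vtD D (c1 • b) x1 (A • p + B' • q) =
        (mu * (((D.a + 1) * D.k : ℂ)) * lam ^ D.k) • v +
          (nu * (c1 ^ (D.k * D.t) * (lam ^ (D.a + 1)) ^ D.k * lam⁻¹)) • D.dTh b u z' := by
      rw [h9, vtD_add, vtD_smul, vtD_smul, vtD_euler D hF hE]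
      have h12 : ev2 D.E (c1 • b) (D.gr x1) = lam ^ D.k • v := by
        rw [hx1, ← hc s t, ← hlam, hpt]
      rw [h12]
      conv_lhs => rw [h7, vtD_scale D hF hE b x0 (ov 0 z') c1 lam hlam0]
      rw [smul_smul, smul_smul, smul_smul]
      rfl
    have hzc : ∀ r : ℂ, D.dTh b u (r • z') = r • D.dTh b u z' := by
      intro r
      have h := vtD_smul D b (ov 1 u) (ov 0 z') r
      rw [← ov_smul, mul_zero] at h
      exact h
    refine ⟨((lam ^ D.k)⁻¹ * (nu * (c1 ^ (D.k * D.t) * (lam ^ (D.a + 1)) ^ D.k * lam⁻¹))) • z',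
      vt_zcone D hD _ hHP.mem,
      (lam ^ D.k)⁻¹ * (mu * (((D.a + 1) * D.k : ℂ)) * lam ^ D.k -
        (D.k : ℂ) * lam ^ (D.k - 1) * (A * p none + B' * q none)), ?_⟩
    have h13 : A • dps c s t + B' • dpt c s t =
        (lam ^ D.k)⁻¹ • (lam ^ D.k • (A • dps c s t + B' • dpt c s t)) := by
      rw [smul_smul, inv_mul_cancel₀ (pow_ne_zero _ hlam0), one_smul]
    rw [h13, h10, h11, hzc]
    module
  · rintro w ⟨z, hz, a, rfl⟩
    by_cases hz0 : z = 0
    · obtain ⟨i⟩ := hD.ine
      obtain ⟨z', hz', hz'0⟩ := hD.Zne i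
      obtain ⟨c, hcH, h1, h2, h3⟩ := vt_exists D hPAR hD hb hb0 u z'
        (Set.mem_iUnion.2 ⟨i, hz'⟩) hz'0
      refine ⟨c, hcH, 1, 0, (hHCUR D hD c hcH).2 1 0 (by simp), by rw [h1, hvu], a / D.dg, 0, ?_⟩
      have h4 : D.dTh b u z = 0 := by
        have h := vtD_smul D b (ov 1 u) (ov 0 z) 0
        rw [← ov_smul, zero_smul, zero_smul, mul_zero] at h
        rw [hz0]
        exact h
      rw [h4, h3, ← hvu, smul_smul, div_mul_cancel₀ _ hdg, zero_smul, zero_add, add_zero]
    · obtain ⟨c, hcH, h1, h2, h3⟩ := vt_exists D hPAR hD hb hb0 u z hz hz0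
      refine ⟨c, hcH, 1, 0, (hHCUR D hD c hcH).2 1 0 (by simp), by rw [h1, hvu], a / D.dg, 1, ?_⟩
      rw [h2, h3, ← hvu, smul_smul, div_mul_cancel₀ _ hdg, one_smul, add_comm (D.dTh b u z)]

end Pool.Agent.Helper87.VM
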